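import Mathlib

set_option autoImplicit false

/-!
# Cup stacking on graphs: basic moves, the gathering lemma, and the certificate lemma
-/

namespace Pool.Agent.R91.Cup

open Finset

variable {V : Type}

/-- One move of the cup stacking game on `G`: all `C x ≥ 1` cups of `x` are put on a vertex `y ≠ x`
that carries at least one cup and has distance exactly `C x` from `x`. -/
def Move (G : SimpleGraph V) (C C' : V → ℕ) : Prop :=
  ∃ x y : V, x ≠ y ∧ 1 ≤ C x ∧ 1 ≤ C y ∧ G.dist x y = C x ∧
    C' x = 0 ∧ C' y = C y + C x ∧ ∀ z, z ≠ x → z ≠ y → C' z = C z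

/-- `C'` is reached from `C` by a finite sequence of moves. -/
abbrev Reach (G : SimpleGraph V) (C C' : V → ℕ) : Prop := Relation.ReflTransGen (Move G) C C'

/-- `G` is `t`-stackable: from one cup on every vertex a finite sequence of moves leads to a
configuration in which all cups are on `t`. -/
def StackableAt (G : SimpleGraph V) (t : V) : Prop :=
  ∃ C' : V → ℕ, Reach G (fun _ => 1) C' ∧ ∀ v, v ≠ t → C' v = 0

/-- `G` is stackable: it is `t`-stackable for every vertex `t`. -/
def Stackable (G : SimpleGraph V) : Prop := ∀ t, StackableAt G t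

/-- `G` is strongly non-stackable: it is `t`-stackable for no vertex `t`. -/
def StronglyNonStackable (G : SimpleGraph V) : Prop := ∀ t, ¬ StackableAt G t

section clears

variable [DecidableEq V]

/-- `A` (a set of vertices with one cup each) can be gathered onto the nonempty vertex `t`. -/
def Clears (G : SimpleGraph V) (t : V) (A : Finset V) : Prop :=
  t ∉ A ∧ ∀ C : V → ℕ, 1 ≤ C t → (∀ x ∈ A, C x = 1) →
    Reach G C (fun v => if v = t then C t + A.card else if v ∈ A then 0 else C v)

theorem Clears.empty (G : SimpleGraph V) (t : V) : Clears G t ∅ := by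
  refine ⟨by simp, fun C _ _ => ?_⟩
  have : (fun v => if v = t then C t + (∅ : Finset V).card else if v ∈ (∅ : Finset V) then 0
      else C v) = C := by
    funext v
    by_cases h : v = t
    · subst h; simp
    · simp [h]
  rw [this]

theorem Clears.union {G : SimpleGraph V} {t : V} {A B : Finset V} (hA : Clears G t A)
    (hB : Clears G t B) (hd : Disjoint A B) : Clears G t (A ∪ B) := by
  refine ⟨by simp [hA.1, hB.1], fun C h1 h2 => ?_⟩
  have r1 := hA.2 C h1 (fun x hx => h2 x (by simp [hx]))
  have r2 := hB.2 (fun v => if v = t then C t + A.card else if v ∈ A then 0 else C v)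
    (by simp; omega) (by
      intro x hx
      have hxt : x ≠ t := fun h => hB.1 (h ▸ hx)
      have hxA : x ∉ A := fun h => Finset.disjoint_left.mp hd h hx
      simp only [hxt, hxA, if_false]
      exact h2 x (by simp [hx]))
  refine (r1.trans r2).trans ?_
  have : (fun v => if v = t then (if t = t then C t + A.card else if t ∈ A then 0 else C t)
      + B.card else if v ∈ B then 0 else if v = t then C t + A.card else if v ∈ A then 0 else C v)
      = (fun v => if v = t then C t + (A ∪ B).card else if v ∈ A ∪ B then 0 else C v) := by
    funext v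
    by_cases h : v = t
    · subst h
      simp only [if_true]
      rw [Finset.card_union_of_disjoint hd]
      omega
    · simp only [h, if_false, Finset.mem_union]
      by_cases h' : v ∈ A <;> by_cases h'' : v ∈ B <;> simp [h', h'']
  rw [this]

/-- If `A` is gathered on `y`, which then has `|A| + 1` cups, and `y` has distance `|A| + 1` from
`t`, then `A ∪ {y}` is gathered on `t`. -/
theorem Clears.jump {G : SimpleGraph V} {y t : V} {A : Finset V} (hA : Clears G y A)
    (hyt : y ≠ t) (htA : t ∉ A) (hd : G.dist y t = A.card + 1) : Clears G t (insert y A) := by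
  refine ⟨by simp [htA, Ne.symm hyt], fun C h1 h2 => ?_⟩
  have hy1 : C y = 1 := h2 y (by simp)
  have r1 := hA.2 C (by omega) (fun x hx => h2 x (by simp [hx]))
  refine r1.trans (Relation.ReflTransGen.single ?_)
  refine ⟨y, t, hyt, ?_, ?_, ?_, ?_, ?_, ?_⟩
  · simp [hy1]
  · simp [Ne.symm hyt, htA, h1]
  · simp [hy1, hd]; omega
  · simp [hyt]
  · simp only [if_true, if_neg (Ne.symm hyt), if_neg htA, hy1,
      Finset.card_insert_of_notMem hA.1]
    omega
  · intro z hz hz'
    by_cases hzA : z ∈ A
    · simp [hz, hz', hzA]
    · simp [hz, hz', hzA]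

theorem Clears.single {G : SimpleGraph V} {y t : V} (h : G.Adj y t) : Clears G t {y} := by
  have := (Clears.empty G y).jump h.ne (by simp) (by
    simpa using (SimpleGraph.dist_eq_one_iff_adj.mpr h))
  simpa using this

theorem Clears.adj {G : SimpleGraph V} {t : V} (A : Finset V) (h : ∀ x ∈ A, G.Adj x t) :
    Clears G t A := by
  induction A using Finset.induction_on with
  | empty => exact Clears.empty G t
  | insert a A ha ih =>
    have h1 := Clears.single (h a (by simp))
    have h2 := ih (fun x hx => h x (by simp [hx]))
    have := h1.union h2 (by simpa using ha)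
    rwa [← Finset.insert_eq] at this

omit [DecidableEq V] in
theorem walk_of_chain (G : SimpleGraph V) : ∀ (L : List V) (t b : V),
    (t :: (L ++ [b])).IsChain G.Adj → ∃ w : G.Walk t b, w.length = L.length + 1 := by
  intro L
  induction L with
  | nil =>
    intro t b h
    simp only [List.nil_append, List.isChain_cons_cons, List.isChain_singleton, and_true] at h
    exact ⟨h.toWalk, by simp⟩
  | cons a L ih =>
    intro t b h
    simp only [List.cons_append, List.isChain_cons_cons] at h
    obtain ⟨w, hw⟩ := ih a b h.2
    exact ⟨SimpleGraph.Walk.cons h.1 w, by simp [hw]⟩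

/-- The gathering lemma: all cups of a path can be gathered onto its first vertex. -/
theorem gather (G : SimpleGraph V) : ∀ (n : ℕ) (t : V) (l : List V), l.length ≤ n →
    (t :: l).IsChain G.Adj → (t :: l).Nodup → Clears G t l.toFinset := by
  intro n
  induction n with
  | zero =>
    intro t l hl _ _
    have : l = [] := List.length_eq_zero_iff.mp (by omega)
    subst this
    simpa using Clears.empty G t
  | succ n ih =>
    intro t l hl hc hn
    rcases List.eq_nil_or_concat' l with rfl | ⟨L, b, rfl⟩
    · simpa using Clears.empty G t
    obtain ⟨w, hw⟩ := walk_of_chain G L t b hc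
    have hbt : b ≠ t := by
      rintro rfl
      simp at hn
    have hd1 : 1 ≤ G.dist t b := SimpleGraph.Reachable.pos_dist_of_ne ⟨w⟩ (Ne.symm hbt)
    have hd2 : G.dist t b ≤ L.length + 1 := hw ▸ SimpleGraph.dist_le w
    obtain ⟨L1, L2, hL, hL2⟩ : ∃ L1 L2 : List V, L = L1 ++ L2 ∧ L2.length = G.dist t b - 1 :=
      ⟨L.take (L.length + 1 - G.dist t b), L.drop (L.length + 1 - G.dist t b),
        (List.take_append_drop _ _).symm, by rw [List.length_drop]; omega⟩
    subst hL
    simp only [List.length_append, List.length_cons, List.length_nil] at hl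
    have hc' : ((t :: L1) ++ (L2 ++ [b])).IsChain G.Adj := by simpa using hc
    rw [List.isChain_append] at hc'
    have hn' : ((t :: L1) ++ (L2 ++ [b])).Nodup := by simpa using hn
    rw [List.nodup_append] at hn'
    obtain ⟨hc1, hc2, -⟩ := hc'
    obtain ⟨hn1, hn2, hn3⟩ := hn'
    have hc3 : (b :: L2.reverse).IsChain G.Adj := by
      have : (L2 ++ [b]).reverse.IsChain G.Adj := by
        rw [List.isChain_reverse]
        refine hc2.imp ?_
        intro x y hxy
        exact hxy.symm
      simpa using this
    have hn4 : (b :: L2.reverse).Nodup := by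
      have := List.nodup_reverse.mpr hn2
      simpa using this
    have k1 := ih b L2.reverse (by simp; omega) hc3 hn4
    have k2 := ih t L1 (by omega) hc1 hn1
    rw [List.toFinset_reverse] at k1
    have hnL2 : L2.Nodup := (List.nodup_append.mp hn2).1
    have htL2 : t ∉ L2 := fun h => hn3 t (by simp) t (by simp [h]) rfl
    have k3 : Clears G t (insert b L2.toFinset) := k1.jump hbt (by simpa using htL2) (by
      rw [List.toFinset_card_of_nodup hnL2, SimpleGraph.dist_comm]; omega)
    have k4 := k2.union k3 (by
      rw [Finset.disjoint_left]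
      intro x hx hx'
      refine hn3 x (by simp at hx; simp [hx]) x ?_ rfl
      simp at hx'
      simpa [or_comm] using hx')
    have : (L1 ++ L2 ++ [b]).toFinset = L1.toFinset ∪ insert b L2.toFinset := by
      ext x; simp [or_comm, or_left_comm]
    rw [this]
    exact k4

end clears

/-- Certificate lemma. -/
theorem certificate_aux [Fintype V] [DecidableEq V] (G : SimpleGraph V) (t : V) (F : V → ℕ)
    (hF : ∀ v, v ≠ t → F v = 0) (hFt : 1 ≤ F t) (C : V → ℕ) (h : Reach G C F) :
    1 ≤ C t ∧ ∃ (p : V → V) (sz : V → ℕ),
      (∀ x, 1 ≤ C x → x ≠ t → G.dist x (p x) = sz x ∧ 1 ≤ C (p x)) ∧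
      (∀ x, 1 ≤ C x → sz x = C x + ∑ c ∈ univ.filter (fun c => 1 ≤ C c ∧ c ≠ t ∧ p c = x), sz c) := by
  induction h using Relation.ReflTransGen.head_induction_on with
  | refl =>
    refine ⟨hFt, id, F, ?_, ?_⟩
    · intro x hx hxt
      have := hF x hxt
      omega
    · intro x hx
      have : univ.filter (fun c => 1 ≤ F c ∧ c ≠ t ∧ id c = x) = ∅ := by
        apply Finset.filter_eq_empty_iff.mpr
        rintro c - ⟨h1, h2, h3⟩
        have := hF c h2
        omega
      rw [this]; simp
  | @head C C' h1 h2 ih =>
    obtain ⟨ihC, p, sz, ih1, ih2⟩ := ih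
    obtain ⟨x, y, hxy, hCx, hCy, hd, hx', hy', hz'⟩ := h1
    have htx : t ≠ x := by rintro rfl; omega
    have hCt : 1 ≤ C t := by
      by_cases hty : t = y
      · rw [hty]; exact hCy
      · rw [← hz' t htx hty]; exact ihC
    have hne : ∀ z, z ≠ x → (1 ≤ C' z ↔ 1 ≤ C z) := by
      intro z hzx
      by_cases hzy : z = y
      · subst hzy; omega
      · rw [hz' z hzx hzy]
    refine ⟨hCt, Function.update p x y, Function.update sz x (C x), ?_, ?_⟩
    · intro z hz hzt
      by_cases hzx : z = x
      · subst hzx
        simp only [Function.update_self]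
        exact ⟨hd, hCy⟩
      · simp only [Function.update_of_ne hzx]
        obtain ⟨a1, a2⟩ := ih1 z ((hne z hzx).mpr hz) hzt
        have hpx : p z ≠ x := by intro h; rw [h] at a2; omega
        exact ⟨a1, (hne _ hpx).mp a2⟩
    · intro z hz
      by_cases hzx : z = x
      · subst hzx
        have : univ.filter (fun c => 1 ≤ C c ∧ c ≠ t ∧ Function.update p z y c = z) = ∅ := by
          apply Finset.filter_eq_empty_iff.mpr
          rintro c - ⟨h1, h2, h3⟩
          by_cases hcz : c = z
          · subst hcz
            simp only [Function.update_self] at h3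
            exact hxy h3.symm
          · rw [Function.update_of_ne hcz] at h3
            have := (ih1 c ((hne c hcz).mpr h1) h2).2
            rw [h3] at this
            omega
        rw [this]
        simp
      · have hz1 := ih2 z ((hne z hzx).mpr hz)
        rw [Function.update_of_ne hzx, hz1]
        by_cases hzy : z = y
        · subst hzy
          have e : univ.filter (fun c => 1 ≤ C c ∧ c ≠ t ∧ Function.update p x z c = z)
              = insert x (univ.filter (fun c => 1 ≤ C' c ∧ c ≠ t ∧ p c = z)) := by
            ext c
            simp only [Finset.mem_filter, Finset.mem_univ, true_and, Finset.mem_insert]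
            by_cases hcx : c = x
            · subst hcx
              simp [hCx, Ne.symm htx]
            · rw [Function.update_of_ne hcx, hne c hcx]
              simp [hcx]
          rw [e, Finset.sum_insert (by simp [hx'])]
          have : ∑ c ∈ univ.filter (fun c => 1 ≤ C' c ∧ c ≠ t ∧ p c = z),
              Function.update sz x (C x) c
              = ∑ c ∈ univ.filter (fun c => 1 ≤ C' c ∧ c ≠ t ∧ p c = z), sz c := by
            apply Finset.sum_congr rfl
            intro c hc
            have hcx : c ≠ x := by
              rintro rfl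
              simp [hx'] at hc
            rw [Function.update_of_ne hcx]
          rw [this, Function.update_self, hy']
          omega
        · have e : univ.filter (fun c => 1 ≤ C c ∧ c ≠ t ∧ Function.update p x y c = z)
              = univ.filter (fun c => 1 ≤ C' c ∧ c ≠ t ∧ p c = z) := by
            ext c
            simp only [Finset.mem_filter, Finset.mem_univ, true_and]
            by_cases hcx : c = x
            · subst hcx
              simp [hx', Ne.symm hzy]
            · rw [Function.update_of_ne hcx, hne c hcx]
          rw [e, hz' z hzx hzy]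
          congr 1
          apply Finset.sum_congr rfl
          intro c hc
          have hcx : c ≠ x := by
            rintro rfl
            simp [hx'] at hc
          rw [Function.update_of_ne hcx]

/-- The reach relation keeps the total number of cups; in particular the target is nonempty. -/
theorem certificate [Fintype V] [DecidableEq V] (G : SimpleGraph V) (t : V)
    (h : StackableAt G t) : ∃ (p : V → V) (sz : V → ℕ),
      (∀ x, x ≠ t → G.dist x (p x) = sz x) ∧
      (∀ x, sz x = 1 + ∑ c ∈ univ.filter (fun c => c ≠ t ∧ p c = x), sz c) := by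
  obtain ⟨F, hr, hF⟩ := h
  have hpos : ∀ C : V → ℕ, Reach G C F → (∃ v, 1 ≤ C v) → ∃ v, 1 ≤ F v := by
    intro C hC
    induction hC using Relation.ReflTransGen.head_induction_on with
    | refl => exact id
    | head h1 h2 ih =>
      intro _
      apply ih
      obtain ⟨x, y, hxy, hCx, hCy, hd, hx', hy', hz'⟩ := h1
      exact ⟨y, by omega⟩
  obtain ⟨v, hv⟩ := hpos _ hr ⟨t, le_refl _⟩
  have hFt : 1 ≤ F t := by
    by_cases hvt : v = t
    · rw [← hvt]; exact hv
    · have := hF v hvt; omega
  obtain ⟨-, p, sz, h1, h2⟩ := certificate_aux G t F hF hFt _ hr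
  refine ⟨p, sz, fun x hx => (h1 x (le_refl _) hx).1, fun x => ?_⟩
  have := h2 x (le_refl _)
  simpa using this

end Pool.Agent.R91.Cup
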