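import Mathlib
import Pool.Agent.R91.Cup.Basic

set_option autoImplicit false

/-!
# Graphs laid out along a line, and the states of the chain
-/

namespace Pool.Agent.R91.Cup

open Finset

/-- The graph of a layout: `pos x` is the position of a vertex, `h x` is `1` for leaves and `0` for
the other vertices. Nonleaves at distance `≤ 1` are adjacent, and leaves are adjacent to the
nonleaves at the same position. -/
def LG {V : Type} (pos : V → ℤ) (h : V → ℕ) : SimpleGraph V where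
  Adj x y := x ≠ y ∧ (pos x - pos y).natAbs + h x + h y ≤ 1
  symm := ⟨fun x y ⟨h1, h2⟩ => ⟨h1.symm, by omega⟩⟩
  loopless := ⟨fun x ⟨h1, _⟩ => h1 rfl⟩

section layout

variable {V : Type} {pos : V → ℤ} {h : V → ℕ}

theorem LG_adj {x y : V} :
    (LG pos h).Adj x y ↔ x ≠ y ∧ (pos x - pos y).natAbs + h x + h y ≤ 1 := Iff.rfl

theorem walk_lower {x y : V} (w : (LG pos h).Walk x y) (hxy : x ≠ y) :
    (pos x - pos y).natAbs + h x + h y ≤ w.length := by
  induction w with
  | nil => exact absurd rfl hxy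
  | @cons x z y hadj w ih =>
    rw [LG_adj] at hadj
    rw [SimpleGraph.Walk.length_cons]
    by_cases hzy : z = y
    · subst hzy; omega
    · have := ih hzy
      omega

theorem walk_upper {B : ℤ} (hB : ∀ x, (pos x).natAbs ≤ B)
    (hall : ∀ p : ℤ, p.natAbs ≤ B → ∃ v, pos v = p ∧ h v = 0) (hh : ∀ v, h v ≤ 1) :
    ∀ (n : ℕ) (x y : V), x ≠ y → (pos x - pos y).natAbs + h x + h y ≤ n + 1 →
      ∃ w : (LG pos h).Walk x y, w.length ≤ n + 1 := by
  intro n
  induction n with
  | zero =>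
    intro x y hxy hD
    exact ⟨(LG_adj.mpr ⟨hxy, hD⟩ : (LG pos h).Adj x y).toWalk, by simp⟩
  | succ n ih =>
    intro x y hxy hD
    by_cases hD' : (pos x - pos y).natAbs + h x + h y ≤ n + 1
    · obtain ⟨w, hw⟩ := ih x y hxy hD'
      exact ⟨w, by omega⟩
    have hBx := hB x
    have hBy := hB y
    have hhx := hh x
    have hhy := hh y
    have key : ∃ z, x ≠ z ∧ z ≠ y ∧ (pos x - pos z).natAbs + h x + h z ≤ 1 ∧
        (pos z - pos y).natAbs + h z + h y ≤ n + 1 := by
      by_cases hx : h x = 1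
      · obtain ⟨z, hz1, hz2⟩ := hall (pos x) hBx
        refine ⟨z, ?_, ?_, by omega, by omega⟩
        · rintro rfl; omega
        · rintro rfl; omega
      · by_cases hlt : pos x < pos y
        · obtain ⟨z, hz1, hz2⟩ := hall (pos x + 1) (by omega)
          refine ⟨z, ?_, ?_, by omega, by omega⟩
          · rintro rfl; omega
          · rintro rfl; omega
        · obtain ⟨z, hz1, hz2⟩ := hall (pos x - 1) (by omega)
          refine ⟨z, ?_, ?_, by omega, by omega⟩
          · rintro rfl; omega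
          · rintro rfl; omega
    obtain ⟨z, hxz, hzy, h1, h2⟩ := key
    obtain ⟨w, hw⟩ := ih z y hzy h2
    exact ⟨SimpleGraph.Walk.cons (LG_adj.mpr ⟨hxz, h1⟩) w, by simp [hw]⟩

theorem LG_connected [Nonempty V] {B : ℤ} (hB : ∀ x, (pos x).natAbs ≤ B)
    (hall : ∀ p : ℤ, p.natAbs ≤ B → ∃ v, pos v = p ∧ h v = 0) (hh : ∀ v, h v ≤ 1) :
    (LG pos h).Connected := by
  refine ⟨fun x y => ?_⟩
  by_cases hxy : x = y
  · rw [hxy]
  · obtain ⟨w, -⟩ := walk_upper hB hall hh _ x y hxy (Nat.le_succ _)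
    exact ⟨w⟩

theorem LG_dist {B : ℤ} (hB : ∀ x, (pos x).natAbs ≤ B)
    (hall : ∀ p : ℤ, p.natAbs ≤ B → ∃ v, pos v = p ∧ h v = 0) (hh : ∀ v, h v ≤ 1)
    {x y : V} (hxy : x ≠ y) :
    (LG pos h).dist x y = max 1 ((pos x - pos y).natAbs + h x + h y) := by
  have : Nonempty V := ⟨x⟩
  have hc := LG_connected hB hall hh
  apply le_antisymm
  · obtain ⟨w, hw⟩ := walk_upper hB hall hh ((pos x - pos y).natAbs + h x + h y - 1) x y hxy
      (by omega)
    have := SimpleGraph.dist_le w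
    omega
  · obtain ⟨w, hw⟩ := hc.exists_walk_length_eq_dist x y
    have h1 := walk_lower w hxy
    have h2 := hc.pos_dist_of_ne hxy
    omega

end layout

/-! ### The states -/

/-- The vertex set of the chain: for each of the two centres (`Bool`) there are `M` central
vertices, and two arms (`Bool`) of `N` vertices each. -/
abbrev Vtx (M N : ℕ) : Type := Bool × (Fin M ⊕ (Bool × Fin N))

variable {M N : ℕ}

/-- The position of a vertex. -/
def pos (k : ℕ) : Vtx M N → ℤ
  | (true, .inl _) => k + 1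
  | (false, .inl _) => -(k + 1)
  | (true, .inr (true, i)) => (k + 1) + min ((i : ℕ) + 1 : ℤ) (k + 1)
  | (true, .inr (false, i)) => (k + 1) - min ((i : ℕ) + 1 : ℤ) (k + 1)
  | (false, .inr (true, i)) => -(k + 1) + min ((i : ℕ) + 1 : ℤ) (k + 1)
  | (false, .inr (false, i)) => -(k + 1) - min ((i : ℕ) + 1 : ℤ) (k + 1)

/-- The central vertices with index `≥ s` are leaves. -/
def lf (s : ℕ) : Vtx M N → ℕ
  | (_, .inl j) => if (j : ℕ) < s then 0 else 1
  | (_, .inr _) => 0

/-- The state `(s, k)`. -/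
def state (M N s k : ℕ) : SimpleGraph (Vtx M N) := LG (pos k) (lf s)

theorem lf_le (s : ℕ) (v : Vtx M N) : lf s v ≤ 1 := by
  rcases v with ⟨c, j | ⟨σ, i⟩⟩ <;> simp only [lf]
  · split_ifs <;> omega
  · omega

theorem pos_le (k : ℕ) (v : Vtx M N) : ((pos k v).natAbs : ℤ) ≤ 2 * (k + 1) := by
  rcases v with ⟨c, j | ⟨σ, i⟩⟩ <;> cases c <;> (try cases σ) <;> simp only [pos] <;> omega

theorem exists_pos {s k : ℕ} (hs : 1 ≤ s) (hM : 1 ≤ M) (hN : k + 1 ≤ N) (p : ℤ)
    (hp : (p.natAbs : ℤ) ≤ 2 * (k + 1)) : ∃ v : Vtx M N, pos k v = p ∧ lf s v = 0 := by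
  by_cases h0 : 0 ≤ p
  · rcases lt_trichotomy p (k + 1) with h1 | h1 | h1
    · refine ⟨(true, .inr (false, ⟨((k + 1 : ℤ) - p - 1).toNat, by omega⟩)), ?_, rfl⟩
      simp only [pos]; omega
    · refine ⟨(true, .inl ⟨0, by omega⟩), ?_, ?_⟩
      · simp only [pos]; omega
      · simp only [lf]; split_ifs <;> omega
    · refine ⟨(true, .inr (true, ⟨(p - (k + 1 : ℤ) - 1).toNat, by omega⟩)), ?_, rfl⟩
      simp only [pos]; omega
  · rcases lt_trichotomy p (-(k + 1)) with h1 | h1 | h1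
    · refine ⟨(false, .inr (false, ⟨(-(k + 1 : ℤ) - p - 1).toNat, by omega⟩)), ?_, rfl⟩
      simp only [pos]; omega
    · refine ⟨(false, .inl ⟨0, by omega⟩), ?_, ?_⟩
      · simp only [pos]; omega
      · simp only [lf]; split_ifs <;> omega
    · refine ⟨(false, .inr (true, ⟨(p + (k + 1 : ℤ) - 1).toNat, by omega⟩)), ?_, rfl⟩
      simp only [pos]; omega

theorem state_connected {s k : ℕ} (hs : 1 ≤ s) (hM : 1 ≤ M) (hN : k + 1 ≤ N) :
    (state M N s k).Connected := by
  have : Nonempty (Vtx M N) := ⟨(true, .inl ⟨0, by omega⟩)⟩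
  exact LG_connected (B := 2 * (k + 1)) (pos_le k) (exists_pos hs hM hN) (lf_le s)

theorem state_dist {s k : ℕ} (hs : 1 ≤ s) (hM : 1 ≤ M) (hN : k + 1 ≤ N) {x y : Vtx M N}
    (hxy : x ≠ y) : (state M N s k).dist x y =
      max 1 ((pos k x - pos k y).natAbs + lf s x + lf s y) :=
  LG_dist (B := 2 * (k + 1)) (pos_le k) (exists_pos hs hM hN) (lf_le s) hxy

theorem state_mono {s s' k k' : ℕ} (hs : s ≤ s') (hk : k' ≤ k) :
    state M N s k ≤ state M N s' k' := by
  rintro ⟨c, u⟩ ⟨c', v⟩ h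
  rw [state, LG_adj] at h ⊢
  refine ⟨h.1, ?_⟩
  have h2 := h.2
  rcases u with j | ⟨σ, i⟩ <;> rcases v with j' | ⟨σ', i'⟩ <;> cases c <;> cases c' <;>
    (try cases σ) <;> (try cases σ') <;> simp only [pos, lf] at h2 ⊢ <;>
    (try split_ifs at h2 ⊢) <;> omega

end Pool.Agent.R91.Cup
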