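import Mathlib
import Pool.Agent.R91.Cup.Layout

set_option autoImplicit false

/-!
# Strongly non-stackable states
-/

namespace Pool.Agent.R91.Cup

open Finset

variable {M N : ℕ}

theorem card_fin_Ico (M a b : ℕ) (hb : b ≤ M) :
    ((univ : Finset (Fin M)).filter (fun j => a ≤ j.val ∧ j.val < b)).card = b - a := by
  have : (((univ : Finset (Fin M)).filter (fun j => a ≤ j.val ∧ j.val < b)).map
      Fin.valEmbedding) = Finset.Ico a b := by
    ext x
    simp only [Finset.mem_map, Finset.mem_filter, Finset.mem_univ, true_and,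
      Fin.valEmbedding_apply, Finset.mem_Ico]
    constructor
    · rintro ⟨j, hj, rfl⟩; exact hj
    · intro hx; exact ⟨⟨x, by omega⟩, hx, rfl⟩
  rw [← Finset.card_map Fin.valEmbedding, this, Nat.card_Ico]

/-- The central vertices of the centre `c` with index in `[a, b)`. -/
def Cen (M N : ℕ) (c : Bool) (a b : ℕ) : Finset (Vtx M N) :=
  ((univ : Finset (Fin M)).filter (fun j => a ≤ j.val ∧ j.val < b)).image (fun j => (c, .inl j))

/-- The arm vertices of the arm `σ` of the centre `c` with index in `[a, b)`. -/
def Arm (M N : ℕ) (c σ : Bool) (a b : ℕ) : Finset (Vtx M N) :=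
  ((univ : Finset (Fin N)).filter (fun j => a ≤ j.val ∧ j.val < b)).image
    (fun j => (c, .inr (σ, j)))

theorem card_Cen (c : Bool) {a b : ℕ} (hb : b ≤ M) : (Cen M N c a b).card = b - a := by
  rw [Cen, Finset.card_image_of_injective _ (fun i j h => by simpa using h), card_fin_Ico _ _ _ hb]

theorem card_Arm (c σ : Bool) {a b : ℕ} (hb : b ≤ N) : (Arm M N c σ a b).card = b - a := by
  rw [Arm, Finset.card_image_of_injective _ (fun i j h => by simpa using h), card_fin_Ico _ _ _ hb]

theorem mem_Cen_inl {c c' : Bool} {a b : ℕ} {j : Fin M} :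
    ((c', .inl j) : Vtx M N) ∈ Cen M N c a b ↔ c = c' ∧ a ≤ j.val ∧ j.val < b := by
  simp only [Cen, Finset.mem_image, Finset.mem_filter, Finset.mem_univ, true_and,
    Prod.mk.injEq, Sum.inl.injEq]
  constructor
  · rintro ⟨i, h1, h2, rfl⟩; exact ⟨h2, h1⟩
  · rintro ⟨h1, h2⟩; exact ⟨j, h2, h1, rfl⟩

theorem mem_Cen_inr {c c' : Bool} {a b : ℕ} {u : Bool × Fin N} :
    ¬ ((c', .inr u) : Vtx M N) ∈ Cen M N c a b := by
  simp [Cen]

theorem mem_Arm_inr {c c' σ σ' : Bool} {a b : ℕ} {i : Fin N} :
    ((c', .inr (σ', i)) : Vtx M N) ∈ Arm M N c σ a b ↔ c = c' ∧ σ = σ' ∧ a ≤ i.val ∧ i.val < b := by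
  simp only [Arm, Finset.mem_image, Finset.mem_filter, Finset.mem_univ, true_and,
    Prod.mk.injEq, Sum.inr.injEq]
  constructor
  · rintro ⟨j, h1, h2, h3, rfl⟩; exact ⟨h2, h3, h1⟩
  · rintro ⟨h1, h2, h3⟩; exact ⟨i, h3, h1, h2, rfl⟩

theorem mem_Arm_inl {c c' σ : Bool} {a b : ℕ} {j : Fin M} :
    ¬ ((c', .inl j) : Vtx M N) ∈ Arm M N c σ a b := by
  simp [Arm]

/-- The set of near vertices. -/
def Near (M N s k : ℕ) : Finset (Vtx M N) :=
  (Cen M N true 0 s ∪ Cen M N false 0 s) ∪
    ((Arm M N true true 0 k ∪ Arm M N true false 0 k) ∪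
      (Arm M N false true 0 k ∪ Arm M N false false 0 k))

theorem card_Near {s k : ℕ} (hs : s ≤ M) (hk : k ≤ N) :
    (Near M N s k).card ≤ 2 * s + 4 * k := by
  unfold Near
  refine (Finset.card_union_le _ _).trans ?_
  have h1 := Finset.card_union_le (Cen M N true 0 s) (Cen M N false 0 s)
  have h2 := Finset.card_union_le (Arm M N true true 0 k ∪ Arm M N true false 0 k)
    (Arm M N false true 0 k ∪ Arm M N false false 0 k)
  have h3 := Finset.card_union_le (Arm M N true true 0 k) (Arm M N true false 0 k)
  have h4 := Finset.card_union_le (Arm M N false true 0 k) (Arm M N false false 0 k)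
  rw [card_Cen _ hs, card_Cen _ hs] at h1
  rw [card_Arm _ _ hk, card_Arm _ _ hk] at h3 h4
  omega

/-- The vertices of the target set of the centre `c`. -/
def P1 {M N : ℕ} (c : Bool) {k : ℕ} (hN : k + 1 ≤ N) : Vtx M N :=
  (!c, .inr (c, ⟨k - 1, by omega⟩))

def P2 {M N : ℕ} (c : Bool) {k : ℕ} (hk : 2 ≤ k) (hN : k + 1 ≤ N) : Vtx M N :=
  (!c, .inr (!c, ⟨1, by omega⟩))

theorem same_pos {s k : ℕ} {c : Bool} {j : Fin M} {v : Vtx M N}
    (h : (pos k ((c, .inl j) : Vtx M N) - pos k v).natAbs + 1 + lf s v ≤ 1) :
    v ∈ Cen M N c 0 s := by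
  rcases v with ⟨c', j' | ⟨σ, i⟩⟩
  · rw [mem_Cen_inl]
    cases c <;> cases c' <;> simp only [pos, lf] at h <;> split_ifs at h <;>
      refine ⟨?_, ?_, ?_⟩ <;> first | rfl | omega
  · exfalso
    cases c <;> cases c' <;> cases σ <;> simp only [pos, lf] at h <;> omega

theorem bad_aux {s k : ℕ} (hs : 1 ≤ s) (hsM : s ≤ M) (hk : 2 ≤ k) (hN : k + 1 ≤ N)
    (hM : (s + 2) * (4 * k + 6) + (2 * s + 4 * k) + s + s + 1 < M) (c : Bool) (t : Vtx M N)
    (ht : t ∉ Cen M N c 0 s ∪ {P1 c hN, P2 c hk hN}) : ¬ StackableAt (state M N s k) t := by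
  intro hst
  obtain ⟨p, sz, h1, h2⟩ := certificate _ t hst
  have hsz : ∀ x, 1 ≤ sz x := fun x => by have := h2 x; omega
  have hpx : ∀ x, x ≠ t → x ≠ p x := by
    intro x hx h
    have e1 := h1 x hx
    rw [← h, SimpleGraph.dist_self] at e1
    have e2 := hsz x
    omega
  have hdist : ∀ x, x ≠ t → sz x = max 1 ((pos k x - pos k (p x)).natAbs + lf s x + lf s (p x)) := by
    intro x hx
    rw [← h1 x hx, state_dist hs (by omega) hN (hpx x hx)]
  have hchild : ∀ x y, y ≠ t → p y = x → sz y + 1 ≤ sz x := by
    intro x y hy hyx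
    have := Finset.single_le_sum (f := sz) (s := univ.filter (fun c => c ≠ t ∧ p c = x))
      (fun _ _ => Nat.zero_le _) (show y ∈ _ by simp [hy, hyx])
    have := h2 x
    omega
  have hle : ∀ x, x ≠ t → sz x ≤ 4 * k + 6 := by
    intro x hx
    have e1 := hdist x hx
    have e2 := pos_le k x
    have e3 := pos_le k (p x)
    have e4 := lf_le s x
    have e5 := lf_le s (p x)
    omega
  set T : Finset (Vtx M N) := Cen M N c 0 s ∪ {P1 c hN, P2 c hk hN} with hT
  set X : Finset (Vtx M N) := (Cen M N c s M).erase t with hX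
  have hXcard : M - s - 1 ≤ X.card := by
    rw [hX]
    have := Finset.pred_card_le_card_erase (s := Cen M N c s M) (a := t)
    rwa [card_Cen _ (le_refl M)] at this
  have hTcard : T.card ≤ s + 2 := by
    rw [hT]
    refine (Finset.card_union_le _ _).trans ?_
    rw [card_Cen _ hsM]
    have := Finset.card_le_two (a := (P1 c hN : Vtx M N)) (b := P2 c hk hN)
    omega
  -- the main claim
  have hmain : ∀ x ∈ X, p x ∈ T ∨ (∃ y ∈ Near M N s k, p y = x) ∨
      (∃ y ∈ Cen M N c 0 s, p (p y) = x) := by
    intro x hx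
    rw [hX, Finset.mem_erase] at hx
    obtain ⟨hxt, hxC⟩ := hx
    obtain ⟨j, rfl, hj⟩ : ∃ j : Fin M, x = (c, .inl j) ∧ s ≤ j.val := by
      rcases x with ⟨c', j | u⟩
      · rw [mem_Cen_inl] at hxC
        exact ⟨j, by rw [hxC.1], hxC.2.1⟩
      · exact absurd hxC mem_Cen_inr
    have hlf : lf s ((c, .inl j) : Vtx M N) = 1 := by
      simp only [lf]; split_ifs <;> omega
    have hd := hdist _ hxt
    rw [hlf] at hd
    by_cases h11 : sz ((c, .inl j) : Vtx M N) = 1
    · left
      rw [hT, Finset.mem_union]
      left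
      exact same_pos (k := k) (j := j) (by omega)
    have hge := hsz ((c, .inl j) : Vtx M N)
    by_cases hII : ∃ y ∈ Near M N s k, p y = (c, .inl j)
    · right; left; exact hII
    by_cases hIII : ∃ y ∈ Cen M N c 0 s, p (p y) = (c, .inl j)
    · right; right; exact hIII
    left
    -- all children are far
    have hfar : ∀ y, y ≠ t → p y = (c, .inl j) → sz y = k + 2 ∨ sz y = 2 * k + 4 ∨
        sz y = 3 * k + 4 := by
      intro y hyt hyx
      have hdy := hdist y hyt
      have hyx' := hpx y hyt
      rw [hyx] at hdy hyx'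
      rw [hlf] at hdy
      rcases y with ⟨c', j' | ⟨σ, i⟩⟩
      · by_cases hj' : j'.val < s
        · exfalso
          apply hII
          refine ⟨_, ?_, hyx⟩
          simp only [Near, Finset.mem_union, mem_Cen_inl]
          left
          cases c' <;> simp [hj']
        · by_cases hcc : c' = c
          · exfalso
            subst hcc
            have hl : lf s ((c', .inl j') : Vtx M N) = 1 := by
              simp only [lf]; split_ifs; rfl
            have hp0 : pos k ((c', .inl j') : Vtx M N) = pos k ((c', .inl j) : Vtx M N) := by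
              cases c' <;> simp only [pos]
            rw [hl, hp0] at hdy
            have hsz2 : sz ((c', .inl j') : Vtx M N) = 2 := by omega
            have hs2 := h2 ((c', .inl j') : Vtx M N)
            obtain ⟨w, hw, hw1⟩ : ∃ w ∈ univ.filter (fun c => c ≠ t ∧ p c = (c', .inl j')),
                sz w ≠ 0 := by
              apply Finset.exists_ne_zero_of_sum_ne_zero
              omega
            simp only [Finset.mem_filter, Finset.mem_univ, true_and] at hw
            have hw2 := hchild _ w hw.1 hw.2
            have hdw := hdist w hw.1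
            rw [hw.2, hl] at hdw
            apply hIII
            refine ⟨w, ?_, by rw [hw.2, hyx]⟩
            apply same_pos (k := k) (j := j')
            omega
          · have hl : lf s ((c', .inl j') : Vtx M N) = 1 := by
              simp only [lf]; split_ifs; rfl
            rw [hl] at hdy
            right; left
            cases c <;> cases c' <;> simp only [pos] at hdy <;>
              first | exact absurd rfl hcc | omega
      · by_cases hi : i.val < k
        · exfalso
          apply hII
          refine ⟨_, ?_, hyx⟩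
          simp only [Near, Finset.mem_union, mem_Arm_inr]
          right
          cases c' <;> cases σ <;> simp [hi]
        · cases c <;> cases c' <;> cases σ <;> simp only [pos, lf] at hdy <;> omega
    have hub : sz ((c, .inl j) : Vtx M N) ≤ 3 * k + 4 := by
      generalize p ((c, .inl j) : Vtx M N) = v at hd
      rcases v with ⟨c', j' | ⟨σ, i⟩⟩
      · cases c <;> cases c' <;> simp only [pos, lf] at hd <;> split_ifs at hd <;> omega
      · cases c <;> cases c' <;> cases σ <;> simp only [pos, lf] at hd <;> omega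
    have hdvd : k + 2 ∣ ∑ c_1 ∈ univ.filter (fun c_1 => c_1 ≠ t ∧ p c_1 = (c, .inl j)), sz c_1 := by
      apply Finset.dvd_sum
      intro y hy
      simp only [Finset.mem_filter, Finset.mem_univ, true_and] at hy
      have e1 := hfar y hy.1 hy.2
      have e2 := hchild _ y hy.1 hy.2
      rcases e1 with e1 | e1 | e1
      · rw [e1]
      · rw [e1]; exact ⟨2, by ring⟩
      · omega
    have hs2 := h2 ((c, .inl j) : Vtx M N)
    obtain ⟨m, hm⟩ := hdvd
    have hm3 : m < 3 := by
      by_contra hcon
      have : 3 ≤ m := by omega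
      have : (k + 2) * 3 ≤ (k + 2) * m := Nat.mul_le_mul_left _ this
      omega
    have hval : sz ((c, .inl j) : Vtx M N) = k + 3 ∨ sz ((c, .inl j) : Vtx M N) = 2 * k + 5 := by
      interval_cases m
      · omega
      · left; omega
      · right; omega
    rw [hT, Finset.mem_union]
    right
    generalize p ((c, .inl j) : Vtx M N) = v at hd
    rcases v with ⟨c', j' | ⟨σ, i⟩⟩
    · exfalso
      cases c <;> cases c' <;> simp only [pos, lf] at hd <;> split_ifs at hd <;> omega
    · simp only [P1, P2, Finset.mem_insert, Finset.mem_singleton]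
      cases c <;> cases c' <;> cases σ <;> simp only [pos, lf] at hd <;>
        simp [Fin.ext_iff] <;> omega
  -- counting
  have hsub : X ⊆ (X.filter (fun x => p x ∈ T)) ∪ ((Near M N s k).image p ∪
      (Cen M N c 0 s).image (fun y => p (p y))) := by
    intro x hx
    rcases hmain x hx with h | ⟨y, hy, h⟩ | ⟨y, hy, h⟩
    · simp [hx, h]
    · simp only [Finset.mem_union, Finset.mem_image]
      right; left; exact ⟨y, hy, h⟩
    · simp only [Finset.mem_union, Finset.mem_image]
      right; right; exact ⟨y, hy, h⟩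
  have hc1 := Finset.card_le_card hsub
  have hc2 := Finset.card_union_le (X.filter (fun x => p x ∈ T)) ((Near M N s k).image p ∪
      (Cen M N c 0 s).image (fun y => p (p y)))
  have hc3 := Finset.card_union_le ((Near M N s k).image p)
    ((Cen M N c 0 s).image (fun y => p (p y)))
  have hc4 : ((Near M N s k).image p).card ≤ 2 * s + 4 * k :=
    Finset.card_image_le.trans (card_Near hsM (by omega))
  have hc5 : ((Cen M N c 0 s).image (fun y => p (p y))).card ≤ s := by
    refine Finset.card_image_le.trans ?_
    rw [card_Cen _ hsM]; omega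
  have hc6 : (X.filter (fun x => p x ∈ T)).card ≤ (s + 2) * (4 * k + 6) := by
    rw [Finset.card_eq_sum_card_fiberwise (f := p) (t := T) (by
      intro x hx; simp at hx; exact hx.2)]
    refine (Finset.sum_le_card_nsmul _ _ (4 * k + 6) ?_).trans ?_
    · intro y hy
      have hyt : y ≠ t := by rintro rfl; exact ht hy
      have : ((X.filter (fun x => p x ∈ T)).filter (fun x => p x = y)).card ≤
          ∑ c ∈ univ.filter (fun c => c ≠ t ∧ p c = y), sz c := by
        rw [Finset.card_eq_sum_ones]
        refine (Finset.sum_le_sum (g := sz) (fun i _ => hsz i)).trans ?_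
        apply Finset.sum_le_sum_of_subset
        intro x hx
        simp only [Finset.mem_filter, hX, Finset.mem_erase] at hx
        simp [hx.1.1.1, hx.2]
      have e1 := h2 y
      have e2 := hle y hyt
      omega
    · rw [smul_eq_mul]
      exact Nat.mul_le_mul_right _ hTcard
  omega

/-- The states with too many leaves are strongly non-stackable. -/
theorem bad {s k : ℕ} (hs : 1 ≤ s) (hsM : s ≤ M) (hk : 2 ≤ k) (hN : k + 1 ≤ N)
    (hM : (s + 2) * (4 * k + 6) + (2 * s + 4 * k) + s + s + 1 < M) :
    StronglyNonStackable (state M N s k) := by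
  intro t
  by_cases ht : t ∈ Cen M N true 0 s ∪ {P1 true hN, P2 true hk hN}
  · apply bad_aux hs hsM hk hN hM false
    intro ht'
    rcases t with ⟨c', j' | ⟨σ, i⟩⟩
    · simp only [P1, P2, Finset.mem_union, mem_Cen_inl, Finset.mem_insert,
        Finset.mem_singleton, Prod.mk.injEq, reduceCtorEq, and_false, or_false] at ht ht'
      rw [← ht.1] at ht'
      exact absurd ht'.1 (by simp)
    · simp only [P1, P2, Finset.mem_union, mem_Cen_inr, Finset.mem_insert,
        Finset.mem_singleton, Prod.mk.injEq, false_or, Bool.not_true, Bool.not_false] at ht ht'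
      rcases ht with ht | ht <;> rcases ht' with ht' | ht' <;>
        exact absurd (ht.1.symm.trans ht'.1) (by simp)
  · exact bad_aux hs hsM hk hN hM true t ht

end Pool.Agent.R91.Cup
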