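import Mathlib
import Pool.Agent.R91.Cup.Bad

set_option autoImplicit false

/-!
# Stackable states
-/

namespace Pool.Agent.R91.Cup

open Finset

section chains

variable {V : Type} [DecidableEq V] {pos : V → ℤ} {h : V → ℕ}

/-- Sweeping a set of nonleaves lying on one side of `t`. -/
theorem exists_chain (f : V → ℤ) (hf : ∀ x y, (pos x - pos y).natAbs = (f x - f y).natAbs) :
    ∀ (n : ℕ) (t : V) (U : Finset V), U.card = n → h t = 0 → t ∉ U →
      (∀ u ∈ U, h u = 0 ∧ f u ≤ f t) →
      (∀ u ∈ U, f u < f t → ∃ u' ∈ insert t U, f u' = f u + 1) →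
      ∃ l : List V, l.toFinset = U ∧ l.Nodup ∧ (t :: l).IsChain (LG pos h).Adj := by
  intro n
  induction n with
  | zero =>
    intro t U hU _ _ _ _
    rw [Finset.card_eq_zero] at hU
    exact ⟨[], by simp [hU], by simp, by simp⟩
  | succ n ih =>
    intro t U hU ht htU h1 h2
    have hne : U.Nonempty := by rw [← Finset.card_pos]; omega
    obtain ⟨a, haU, hmax⟩ := Finset.exists_max_image U f hne
    have hta : t ≠ a := by rintro rfl; exact htU haU
    have hadj : (LG pos h).Adj t a := by
      rw [LG_adj, hf]
      refine ⟨hta, ?_⟩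
      have e1 := h1 a haU
      by_cases hlt : f a < f t
      · obtain ⟨u', hu', hfu⟩ := h2 a haU hlt
        rw [Finset.mem_insert] at hu'
        rcases hu' with rfl | hu'
        · omega
        · have := hmax u' hu'; omega
      · omega
    obtain ⟨l, hl1, hl2, hl3⟩ := ih a (U.erase a) (by rw [Finset.card_erase_of_mem haU]; omega)
      (h1 a haU).1 (by simp) (by
        intro u hu
        rw [Finset.mem_erase] at hu
        exact ⟨(h1 u hu.2).1, hmax u hu.2⟩) (by
        intro u hu hlt
        rw [Finset.mem_erase] at hu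
        obtain ⟨u', hu', hfu⟩ := h2 u hu.2 (lt_of_lt_of_le hlt (h1 a haU).2)
        rw [Finset.mem_insert] at hu'
        rcases hu' with rfl | hu'
        · refine ⟨a, by simp, ?_⟩
          have := (h1 a haU).2
          omega
        · refine ⟨u', ?_, hfu⟩
          rw [Finset.mem_insert, Finset.mem_erase]
          tauto)
    refine ⟨a :: l, ?_, ?_, ?_⟩
    · rw [List.toFinset_cons, hl1, Finset.insert_erase haU]
    · rw [List.nodup_cons]
      refine ⟨?_, hl2⟩
      intro hal
      have : a ∈ l.toFinset := by simpa using hal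
      rw [hl1] at this
      simp at this
    · rw [List.isChain_cons_cons]
      exact ⟨hadj, hl3⟩

theorem clears_sweep (f : V → ℤ) (hf : ∀ x y, (pos x - pos y).natAbs = (f x - f y).natAbs)
    (t : V) (U : Finset V) (ht : h t = 0) (htU : t ∉ U)
    (h1 : ∀ u ∈ U, h u = 0 ∧ f u ≤ f t)
    (h2 : ∀ u ∈ U, f u < f t → ∃ u' ∈ insert t U, f u' = f u + 1) :
    Clears (LG pos h) t U := by
  obtain ⟨l, hl1, hl2, hl3⟩ := exists_chain f hf U.card t U rfl ht htU h1 h2
  rw [← hl1]
  refine gather _ l.length t l le_rfl hl3 ?_
  rw [List.nodup_cons]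
  refine ⟨?_, hl2⟩
  intro h
  have : t ∈ l.toFinset := by simpa using h
  rw [hl1] at this
  exact htU this

theorem clears_sweep' (f : V → ℤ) (hf : ∀ x y, (pos x - pos y).natAbs = (f x - f y).natAbs)
    (t a : V) (U : Finset V) (hta : (LG pos h).Adj t a) (ha : h a = 0) (haU : a ∉ U) (htU : t ∉ U)
    (h1 : ∀ u ∈ U, h u = 0 ∧ f u ≤ f a)
    (h2 : ∀ u ∈ U, f u < f a → ∃ u' ∈ insert a U, f u' = f u + 1) :
    Clears (LG pos h) t (insert a U) := by
  obtain ⟨l, hl1, hl2, hl3⟩ := exists_chain f hf U.card a U rfl ha haU h1 h2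
  have : insert a U = (a :: l).toFinset := by rw [List.toFinset_cons, hl1]
  rw [this]
  refine gather _ (a :: l).length t (a :: l) le_rfl ?_ ?_
  · rw [List.isChain_cons_cons]
    exact ⟨hta, hl3⟩
  · have hal : a ∉ l := by
      intro h
      have : a ∈ l.toFinset := by simpa using h
      rw [hl1] at this
      exact haU this
    have htl : t ∉ l := by
      intro h
      have : t ∈ l.toFinset := by simpa using h
      rw [hl1] at this
      exact htU this
    simp [hta.ne, hal, htl, hl2]

end chains

variable {M N : ℕ}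

/-- The groups of one centre. -/
theorem groups {s k g e : ℕ} (hs : g ≤ s) (hs1 : 1 ≤ s) (hM : s ≤ M) (hk : 1 ≤ k) (hN : k + 1 ≤ N)
    (c σ : Bool) (t : Vtx M N) (ht : t ∉ Cen M N c 0 s)
    (hE : ∀ i : Fin N, k ≤ i.val →
      (pos k ((c, .inr (σ, i)) : Vtx M N) - pos k t).natAbs + lf s t = k + 2 + e) :
    ∀ (n : ℕ) (A Y Z : Finset (Vtx M N)), A.card = n * k → Y.card = n → Z.card = n * (e + 1) →
      A ⊆ Cen M N c g M → t ∉ A → Y ⊆ Cen M N c 0 g → Z ⊆ Arm M N c σ k N →
      Clears (state M N s k) t (A ∪ Y ∪ Z) := by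
  have htZ : t ∉ Arm M N c σ k N := by
    intro h
    rcases t with ⟨c', j' | ⟨σ', i⟩⟩
    · exact mem_Arm_inl h
    · rw [mem_Arm_inr] at h
      obtain ⟨rfl, rfl, h3, -⟩ := h
      have := hE i h3
      simp only [lf, sub_self, Int.natAbs_zero] at this
      omega
  have htY : t ∉ Cen M N c 0 g := by
    intro h
    apply ht
    rcases t with ⟨c', j' | ⟨σ', i⟩⟩
    · rw [mem_Cen_inl] at h ⊢
      exact ⟨h.1, h.2.1, by omega⟩
    · exact absurd h mem_Cen_inr
  intro n
  induction n with
  | zero =>
    intro A Y Z hA hY hZ _ _ _ _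
    rw [Nat.zero_mul, Finset.card_eq_zero] at hA hZ
    rw [Finset.card_eq_zero] at hY
    subst hA hY hZ
    simpa using Clears.empty _ t
  | succ n ih =>
    intro A Y Z hA hY hZ hAs htA hYs hZs
    obtain ⟨A1, hA1s, hA1⟩ := Finset.exists_subset_card_eq (s := A) (n := k) (by
      rw [hA, Nat.succ_mul]; omega)
    obtain ⟨Y1, hY1s, hY1⟩ := Finset.exists_subset_card_eq (s := Y) (n := 1) (by omega)
    obtain ⟨Z1, hZ1s, hZ1⟩ := Finset.exists_subset_card_eq (s := Z) (n := e + 1) (by
      rw [hZ, Nat.succ_mul]; omega)
    obtain ⟨y, rfl⟩ := Finset.card_eq_one.mp hY1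
    obtain ⟨z, hz⟩ : Z1.Nonempty := by rw [← Finset.card_pos]; omega
    have hyY : y ∈ Y := by simpa using hY1s
    have ih' := ih (A \ A1) (Y \ {y}) (Z \ Z1)
      (by rw [Finset.card_sdiff_of_subset hA1s, hA, hA1, Nat.succ_mul]; omega)
      (by rw [Finset.card_sdiff_of_subset hY1s, hY]; simp)
      (by rw [Finset.card_sdiff_of_subset hZ1s, hZ, hZ1, Nat.succ_mul]; omega)
      (Finset.sdiff_subset.trans hAs) (fun h => htA (Finset.sdiff_subset h))
      (Finset.sdiff_subset.trans hYs) (Finset.sdiff_subset.trans hZs)
    have memA : ∀ a ∈ A, ∃ j : Fin M, a = (c, .inl j) ∧ g ≤ j.val := by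
      intro a ha
      have := hAs ha
      rcases a with ⟨c', j' | ⟨σ', i⟩⟩
      · rw [mem_Cen_inl] at this
        exact ⟨j', by rw [this.1], this.2.1⟩
      · exact absurd this mem_Cen_inr
    have memY : ∀ a ∈ Y, ∃ j : Fin M, a = (c, .inl j) ∧ j.val < g := by
      intro a ha
      have := hYs ha
      rcases a with ⟨c', j' | ⟨σ', i⟩⟩
      · rw [mem_Cen_inl] at this
        exact ⟨j', by rw [this.1], this.2.2⟩
      · exact absurd this mem_Cen_inr
    have memZ : ∀ a ∈ Z, ∃ j : Fin N, a = (c, .inr (σ, j)) ∧ k ≤ j.val := by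
      intro a ha
      have := hZs ha
      rcases a with ⟨c', j' | ⟨σ', i⟩⟩
      · exact absurd this mem_Arm_inl
      · rw [mem_Arm_inr] at this
        exact ⟨i, by rw [this.1, this.2.1], this.2.2.1⟩
    obtain ⟨jy, hjy, hjyg⟩ := memY y hyY
    obtain ⟨jz, hjz, hjzk⟩ := memZ z (hZ1s hz)
    have hyA1 : y ∉ A1 := by
      intro h
      obtain ⟨j, hj, hjg⟩ := memA y (hA1s h)
      rw [hjy] at hj
      simp only [Prod.mk.injEq, Sum.inl.injEq, true_and] at hj
      rw [hj] at hjyg
      omega
    have hty : t ≠ y := by rintro rfl; exact htY (hYs hyY)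
    have htz : t ≠ z := by rintro rfl; exact htZ (hZs (hZ1s hz))
    have hlfy : lf s y = 0 := by
      rw [hjy]; simp only [lf]; split_ifs <;> omega
    -- first: `A1` onto `y`
    have c1 : Clears (state M N s k) y A1 := by
      apply Clears.adj
      intro a ha
      obtain ⟨j, hj, hjg⟩ := memA a (hA1s ha)
      rw [state, LG_adj]
      refine ⟨by rintro rfl; exact hyA1 ha, ?_⟩
      have := lf_le s a
      have hp : pos k a = pos k y := by
        rw [hj, hjy]; cases c <;> simp only [pos]
      rw [hp, hlfy]
      omega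
    have hyz : y ≠ z := by rw [hjy, hjz]; simp
    have c2 : Clears (state M N s k) z (insert y A1) := by
      refine c1.jump hyz ?_ ?_
      · intro h
        obtain ⟨j, hj, hjg⟩ := memA z (hA1s h)
        rw [hjz] at hj
        simp at hj
      · rw [state_dist hs1 (by omega) hN hyz, hlfy, hA1, hjy, hjz]
        cases c <;> cases σ <;> simp only [pos, lf] <;> omega
    have c3 : Clears (state M N s k) z (Z1.erase z) := by
      apply Clears.adj
      intro a ha
      rw [Finset.mem_erase] at ha
      obtain ⟨j, hj, hjk⟩ := memZ a (hZ1s ha.2)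
      rw [state, LG_adj]
      refine ⟨ha.1, ?_⟩
      rw [hj, hjz]
      cases c <;> cases σ <;> simp only [pos, lf] <;> omega
    have hdis : Disjoint (insert y A1) (Z1.erase z) := by
      rw [Finset.disjoint_left]
      intro a ha ha'
      rw [Finset.mem_erase] at ha'
      obtain ⟨j, hj, hjk⟩ := memZ a (hZ1s ha'.2)
      rw [Finset.mem_insert] at ha
      rcases ha with rfl | ha
      · rw [hjy] at hj; simp at hj
      · obtain ⟨j', hj', -⟩ := memA a (hA1s ha)
        rw [hj'] at hj; simp at hj
    have c4 := c2.union c3 hdis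
    have c5 : Clears (state M N s k) t (insert z (insert y A1 ∪ Z1.erase z)) := by
      refine c4.jump (Ne.symm htz) ?_ ?_
      · rw [Finset.mem_union, Finset.mem_insert, Finset.mem_erase]
        rintro ((h | h) | ⟨-, h⟩)
        · exact hty h
        · exact htA (hA1s h)
        · exact htZ (hZs (hZ1s h))
      · rw [Finset.card_union_of_disjoint hdis, Finset.card_insert_of_notMem hyA1,
          Finset.card_erase_of_mem hz, hA1, hZ1, state_dist hs1 (by omega) hN (Ne.symm htz)]
        have h1 := hE jz hjzk
        rw [← hjz] at h1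
        have h2 : lf s z = 0 := by rw [hjz]; simp only [lf]
        omega
    have c6 := ih'.union c5 (by
      rw [Finset.disjoint_left]
      intro a ha ha'
      simp only [Finset.mem_union, Finset.mem_sdiff, Finset.mem_singleton, Finset.mem_insert,
        Finset.mem_erase] at ha ha'
      rcases ha' with h | ((h | h) | h)
      · subst h
        rcases ha with (h | h) | h
        · obtain ⟨j', hj', -⟩ := memA a h.1
          rw [hj'] at hjz; simp at hjz
        · obtain ⟨j', hj', -⟩ := memY a h.1
          rw [hj'] at hjz; simp at hjz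
        · exact h.2 hz
      · subst h
        rcases ha with (h | h) | h
        · obtain ⟨j', hj', hj''⟩ := memA a h.1
          rw [hj'] at hjy
          simp only [Prod.mk.injEq, Sum.inl.injEq, true_and] at hjy
          rw [← hjy] at hjyg
          omega
        · exact h.2 rfl
        · obtain ⟨j', hj', -⟩ := memZ a h.1
          rw [hj'] at hjy; simp at hjy
      · rcases ha with (h' | h') | h'
        · exact h'.2 h
        · obtain ⟨j', hj', hj2⟩ := memY a h'.1
          obtain ⟨j3, hj3, hj4⟩ := memA a (hA1s h)
          rw [hj'] at hj3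
          simp only [Prod.mk.injEq, Sum.inl.injEq, true_and] at hj3
          rw [hj3] at hj2
          omega
        · obtain ⟨j', hj', hj2⟩ := memZ a h'.1
          obtain ⟨j3, hj3, hj4⟩ := memA a (hA1s h)
          rw [hj'] at hj3; simp at hj3
      · rcases ha with (h' | h') | h'
        · obtain ⟨j', hj', hj2⟩ := memA a h'.1
          obtain ⟨j3, hj3, hj4⟩ := memZ a (hZ1s h.2)
          rw [hj'] at hj3; simp at hj3
        · obtain ⟨j', hj', hj2⟩ := memY a h'.1
          obtain ⟨j3, hj3, hj4⟩ := memZ a (hZ1s h.2)
          rw [hj'] at hj3; simp at hj3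
        · exact h'.2 h.2)
    have : A ∪ Y ∪ Z = (A \ A1 ∪ Y \ {y} ∪ Z \ Z1) ∪ insert z (insert y A1 ∪ Z1.erase z) := by
      ext a
      simp only [Finset.mem_union, Finset.mem_sdiff, Finset.mem_singleton, Finset.mem_insert,
        Finset.mem_erase]
      constructor
      · rintro ((h | h) | h)
        · by_cases h' : a ∈ A1
          · exact Or.inr (Or.inr (Or.inl (Or.inr h')))
          · exact Or.inl (Or.inl (Or.inl ⟨h, h'⟩))
        · by_cases h' : a = y
          · exact Or.inr (Or.inr (Or.inl (Or.inl h')))
          · exact Or.inl (Or.inl (Or.inr ⟨h, h'⟩))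
        · by_cases h' : a ∈ Z1
          · by_cases h'' : a = z
            · exact Or.inr (Or.inl h'')
            · exact Or.inr (Or.inr (Or.inr ⟨h'', h'⟩))
          · exact Or.inl (Or.inr ⟨h, h'⟩)
      · rintro (((h | h) | h) | (h | ((h | h) | h)))
        · exact Or.inl (Or.inl h.1)
        · exact Or.inl (Or.inr h.1)
        · exact Or.inr h.1
        · exact Or.inr (h ▸ hZ1s hz)
        · exact Or.inl (Or.inr (h ▸ hyY))
        · exact Or.inl (Or.inl (hA1s h))
        · exact Or.inr (hZ1s h.2)
    rw [this]
    exact c6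

theorem exists_dir {s k : ℕ} (c : Bool) (t : Vtx M N) (ht : t ∉ Cen M N c 0 s) :
    ∃ (σ : Bool) (e : ℕ), e ≤ 3 * k + 3 ∧ ∀ i : Fin N, k ≤ i.val →
      (pos k ((c, .inr (σ, i)) : Vtx M N) - pos k t).natAbs + lf s t = k + 2 + e := by
  have hlf := lf_le s t
  cases c
  · refine ⟨decide (pos k t ≤ -(k + 1)), (pos k t + (k + 1)).natAbs + lf s t - 1, ?_, ?_⟩
    · have := pos_le k t
      omega
    · intro i hi
      have h1 : 1 ≤ (pos k t + (k + 1)).natAbs + lf s t := by
        rcases t with ⟨c', j' | ⟨σ', i'⟩⟩
        · rw [mem_Cen_inl] at ht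
          cases c' <;> simp only [pos, lf]
          · simp at ht
            split_ifs <;> omega
          · split_ifs <;> omega
        · cases c' <;> cases σ' <;> simp only [pos, lf] <;> omega
      by_cases h2 : pos k t ≤ -(k + 1)
      · rw [decide_eq_true h2]
        generalize pos k t = p at *
        generalize lf s t = q at *
        simp only [pos]
        omega
      · rw [decide_eq_false h2]
        generalize pos k t = p at *
        generalize lf s t = q at *
        simp only [pos]
        omega
  · refine ⟨decide (pos k t ≤ (k + 1)), (pos k t - (k + 1)).natAbs + lf s t - 1, ?_, ?_⟩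
    · have := pos_le k t
      omega
    · intro i hi
      have h1 : 1 ≤ (pos k t - (k + 1)).natAbs + lf s t := by
        rcases t with ⟨c', j' | ⟨σ', i'⟩⟩
        · rw [mem_Cen_inl] at ht
          cases c' <;> simp only [pos, lf]
          · split_ifs <;> omega
          · simp at ht
            split_ifs <;> omega
        · cases c' <;> cases σ' <;> simp only [pos, lf] <;> omega
      by_cases h2 : pos k t ≤ (k + 1)
      · rw [decide_eq_true h2]
        generalize pos k t = p at *
        generalize lf s t = q at *
        simp only [pos]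
        omega
      · rw [decide_eq_false h2]
        generalize pos k t = p at *
        generalize lf s t = q at *
        simp only [pos]
        omega

/-- Clearing the leaves of one centre. -/
theorem clear_center {s k g : ℕ} (hg : g + 3 ≤ s) (hM : M = s + g * k) (hk : 1 ≤ k)
    (hN : k + g * (3 * k + 4) + 1 ≤ N) (c : Bool) (t : Vtx M N) :
    ∃ U : Finset (Vtx M N), Clears (state M N s k) t U ∧
      (∀ x ∈ U, x.1 = c) ∧
      (∀ j : Fin M, s ≤ j.val → ((c, .inl j) : Vtx M N) ≠ t → ((c, .inl j) : Vtx M N) ∈ U) ∧
      (∀ j : Fin M, g + 1 ≤ j.val → j.val < s → ((c, .inl j) : Vtx M N) ∉ U) ∧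
      (∀ (σ : Bool) (i : Fin N), i.val < k → ((c, .inr (σ, i)) : Vtx M N) ∉ U) ∧
      (∀ (σ : Bool) (i : Fin N), i.val + 1 = N → ((c, .inr (σ, i)) : Vtx M N) ∉ U) := by
  by_cases ht : t ∈ Cen M N c 0 s
  · refine ⟨Cen M N c s M, ?_, ?_, ?_, ?_, ?_, ?_⟩
    · apply Clears.adj
      intro x hx
      rcases x with ⟨c', j' | u⟩
      · rcases t with ⟨c'', j'' | u''⟩
        · rw [mem_Cen_inl] at hx ht
          obtain ⟨rfl, h2, h3⟩ := hx
          obtain ⟨rfl, h5, h6⟩ := ht
          rw [state, LG_adj]
          refine ⟨?_, ?_⟩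
          · intro h
            simp only [Prod.mk.injEq, Sum.inl.injEq, true_and] at h
            rw [h] at h2; omega
          · cases c <;> simp only [pos, lf] <;> split_ifs <;> omega
        · exact absurd ht mem_Cen_inr
      · exact absurd hx mem_Cen_inr
    · rintro ⟨c', j' | u⟩ hx
      · rw [mem_Cen_inl] at hx; exact hx.1.symm
      · exact absurd hx mem_Cen_inr
    · intro j hj _
      rw [mem_Cen_inl]; exact ⟨rfl, hj, j.2⟩
    · intro j _ hj h
      rw [mem_Cen_inl] at h; omega
    · intro σ i _; exact mem_Cen_inr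
    · intro σ i _; exact mem_Cen_inr
  · obtain ⟨σ, e, he, hE⟩ := exists_dir (k := k) c t ht
    have hge : g * (e + 1) ≤ g * (3 * k + 4) := Nat.mul_le_mul_left _ (by omega)
    have hgM : g < M := by omega
    -- the set of absorbed vertices
    obtain ⟨A, hAcard, hAs, htA, hAl, hAn⟩ : ∃ A : Finset (Vtx M N), A.card = g * k ∧
        A ⊆ Cen M N c g M ∧ t ∉ A ∧
        (∀ j : Fin M, s ≤ j.val → ((c, .inl j) : Vtx M N) ≠ t → ((c, .inl j) : Vtx M N) ∈ A) ∧
        (∀ j : Fin M, g + 1 ≤ j.val → j.val < s → ((c, .inl j) : Vtx M N) ∉ A) := by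
      by_cases htl : t ∈ Cen M N c s M
      · refine ⟨insert (c, .inl ⟨g, hgM⟩) ((Cen M N c s M).erase t), ?_, ?_, ?_, ?_, ?_⟩
        · have h1 : ((c, .inl ⟨g, hgM⟩) : Vtx M N) ∉ (Cen M N c s M).erase t := by
            rw [Finset.mem_erase, mem_Cen_inl]
            simp only [not_and]
            intro _ _ h; omega
          rw [Finset.card_insert_of_notMem h1, Finset.card_erase_of_mem htl,
            card_Cen _ (le_refl M)]
          have : 1 ≤ (Cen M N c s M).card := Finset.card_pos.mpr ⟨t, htl⟩
          rw [card_Cen _ (le_refl M)] at this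
          omega
        · intro x hx
          rw [Finset.mem_insert, Finset.mem_erase] at hx
          rcases hx with rfl | ⟨-, hx⟩
          · rw [mem_Cen_inl]; exact ⟨rfl, le_refl _, hgM⟩
          · rcases x with ⟨c', j' | u⟩
            · rw [mem_Cen_inl] at hx ⊢; exact ⟨hx.1, by omega, hx.2.2⟩
            · exact absurd hx mem_Cen_inr
        · rw [Finset.mem_insert, Finset.mem_erase]
          rintro (h | h)
          · apply ht; rw [h, mem_Cen_inl]
            exact ⟨rfl, Nat.zero_le _, by show g < s; omega⟩
          · exact h.1 rfl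
        · intro j hj hjt
          rw [Finset.mem_insert, Finset.mem_erase, mem_Cen_inl]
          exact Or.inr ⟨hjt, rfl, hj, j.2⟩
        · intro j hj hjs h
          rw [Finset.mem_insert, Finset.mem_erase, mem_Cen_inl] at h
          rcases h with h | h
          · simp only [Prod.mk.injEq, Sum.inl.injEq, true_and, Fin.ext_iff] at h
            omega
          · omega
      · refine ⟨Cen M N c s M, ?_, ?_, htl, ?_, ?_⟩
        · rw [card_Cen _ (le_refl M)]; omega
        · intro x hx
          rcases x with ⟨c', j' | u⟩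
          · rw [mem_Cen_inl] at hx ⊢; exact ⟨hx.1, by omega, hx.2.2⟩
          · exact absurd hx mem_Cen_inr
        · intro j hj _
          rw [mem_Cen_inl]; exact ⟨rfl, hj, j.2⟩
        · intro j _ hj h
          rw [mem_Cen_inl] at h; omega
    have hY : (Cen M N c 0 g).card = g := by rw [card_Cen _ (by omega)]; omega
    have hZ : (Arm M N c σ k (k + g * (e + 1))).card = g * (e + 1) := by
      rw [card_Arm _ _ (by omega)]; omega
    have key := groups (by omega) (by omega) (by omega) hk (by omega) c σ t ht hE g A
      (Cen M N c 0 g) (Arm M N c σ k (k + g * (e + 1))) hAcard hY hZ hAs htA (le_refl _) (by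
        intro x hx
        rcases x with ⟨c', j' | ⟨σ', i⟩⟩
        · exact absurd hx mem_Arm_inl
        · rw [mem_Arm_inr] at hx ⊢
          exact ⟨hx.1, hx.2.1, hx.2.2.1, i.2⟩)
    refine ⟨_, key, ?_, ?_, ?_, ?_, ?_⟩
    · intro x hx
      simp only [Finset.mem_union] at hx
      rcases hx with (hx | hx) | hx
      · have := hAs hx
        rcases x with ⟨c', j' | u⟩
        · rw [mem_Cen_inl] at this; exact this.1.symm
        · exact absurd this mem_Cen_inr
      · rcases x with ⟨c', j' | u⟩
        · rw [mem_Cen_inl] at hx; exact hx.1.symm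
        · exact absurd hx mem_Cen_inr
      · rcases x with ⟨c', j' | ⟨σ', i⟩⟩
        · exact absurd hx mem_Arm_inl
        · rw [mem_Arm_inr] at hx; exact hx.1.symm
    · intro j hj hjt
      simp only [Finset.mem_union]
      exact Or.inl (Or.inl (hAl j hj hjt))
    · intro j hj hjs h
      simp only [Finset.mem_union] at h
      rcases h with (h | h) | h
      · exact hAn j hj hjs h
      · rw [mem_Cen_inl] at h; omega
      · exact mem_Arm_inl h
    · intro σ' i hi h
      simp only [Finset.mem_union] at h
      rcases h with (h | h) | h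
      · exact mem_Cen_inr (hAs h)
      · exact mem_Cen_inr h
      · rw [mem_Arm_inr] at h; omega
    · intro σ' i hi h
      simp only [Finset.mem_union] at h
      rcases h with (h | h) | h
      · exact mem_Cen_inr (hAs h)
      · exact mem_Cen_inr h
      · rw [mem_Arm_inr] at h; omega

/-- The balanced states are stackable. -/
theorem good {s k g : ℕ} (hg : g + 3 ≤ s) (hM : M = s + g * k) (hk : 1 ≤ k)
    (hN : k + g * (3 * k + 4) + 2 ≤ N) : Stackable (state M N s k) := by
  intro t
  obtain ⟨U1, hU1, hU1c, hU1l, hU1a, hU1b, hU1d⟩ :=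
    clear_center hg hM hk (by omega) true t
  obtain ⟨U2, hU2, hU2c, hU2l, hU2a, hU2b, hU2d⟩ :=
    clear_center hg hM hk (by omega) false t
  have hdis : Disjoint U1 U2 := by
    rw [Finset.disjoint_left]
    intro x h1 h2
    have := hU1c x h1
    rw [hU2c x h2] at this
    simp at this
  have hU := hU1.union hU2 hdis
  set W : Finset (Vtx M N) := univ \ (insert t (U1 ∪ U2)) with hW
  have memW : ∀ w, w ∈ W ↔ w ≠ t ∧ w ∉ U1 ∧ w ∉ U2 := by
    intro w
    rw [hW]
    simp only [Finset.mem_sdiff, Finset.mem_univ, Finset.mem_insert, Finset.mem_union, true_and]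
    tauto
  have hWlf : ∀ w ∈ W, lf s w = 0 := by
    intro w hw
    rw [memW] at hw
    rcases w with ⟨c, j | u⟩
    · simp only [lf]
      split_ifs with hj
      · rfl
      · exfalso
        cases c
        · exact hw.2.2 (hU2l j (by omega) hw.1)
        · exact hw.2.1 (hU1l j (by omega) hw.1)
    · rfl
  have cenW : ∀ (c : Bool) (j : Fin M), g + 1 ≤ j.val → j.val < s →
      ((c, .inl j) : Vtx M N) ≠ t → ((c, .inl j) : Vtx M N) ∈ W := by
    intro c j h1 h2 h3
    rw [memW]
    cases c
    · exact ⟨h3, fun h => absurd (hU1c _ h) (by simp), hU2a j h1 h2⟩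
    · exact ⟨h3, hU1a j h1 h2, fun h => absurd (hU2c _ h) (by simp)⟩
  have armW : ∀ (c σ : Bool) (i : Fin N), (i.val < k ∨ i.val + 1 = N) →
      ((c, .inr (σ, i)) : Vtx M N) ≠ t → ((c, .inr (σ, i)) : Vtx M N) ∈ W := by
    intro c σ i h1 h3
    rw [memW]
    cases c
    · refine ⟨h3, fun h => absurd (hU1c _ h) (by simp), ?_⟩
      rcases h1 with h1 | h1
      · exact hU2b σ i h1
      · exact hU2d σ i h1
    · refine ⟨h3, ?_, fun h => absurd (hU2c _ h) (by simp)⟩
      rcases h1 with h1 | h1
      · exact hU1b σ i h1
      · exact hU1d σ i h1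
  have hpos : ∀ p : ℤ, (p.natAbs : ℤ) ≤ 2 * (k + 1) → p ≠ pos k t → ∃ w ∈ W, pos k w = p := by
    intro p hp hpt
    have hgs : g + 1 < M := by omega
    have aux : ∀ w : Vtx M N, pos k w = p → w ≠ t := by
      rintro w h rfl; exact hpt h.symm
    have arm : ∀ (c σ : Bool) (a : ℕ) (ha : a ≤ k),
        pos k ((c, .inr (σ, if h : a < k then (⟨a, by omega⟩ : Fin N) else
          ⟨N - 1, by omega⟩)) : Vtx M N) = p → ∃ w ∈ W, pos k w = p := by
      intro c σ a ha h
      refine ⟨_, ?_, h⟩
      apply armW _ _ _ _ (aux _ h)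
      split_ifs with h'
      · left; exact h'
      · right; show N - 1 + 1 = N; omega
    by_cases h0 : 0 ≤ p
    · rcases lt_trichotomy p (k + 1) with h1 | h1 | h1
      · apply arm true false ((k + 1 : ℤ) - p - 1).toNat (by omega)
        simp only [pos]; split_ifs <;> simp only <;> omega
      · have hq : pos k ((true, .inl ⟨g + 1, hgs⟩) : Vtx M N) = p := by simp only [pos]; omega
        exact ⟨_, cenW true ⟨g + 1, hgs⟩ (le_refl _) (by show g + 1 < s; omega) (aux _ hq), hq⟩
      · apply arm true true (p - (k + 1 : ℤ) - 1).toNat (by omega)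
        simp only [pos]; split_ifs <;> simp only <;> omega
    · rcases lt_trichotomy p (-(k + 1)) with h1 | h1 | h1
      · apply arm false false (-(k + 1 : ℤ) - p - 1).toNat (by omega)
        simp only [pos]; split_ifs <;> simp only <;> omega
      · have hq : pos k ((false, .inl ⟨g + 1, hgs⟩) : Vtx M N) = p := by simp only [pos]; omega
        exact ⟨_, cenW false ⟨g + 1, hgs⟩ (le_refl _) (by show g + 1 < s; omega) (aux _ hq), hq⟩
      · apply arm false true (p + (k + 1 : ℤ) - 1).toNat (by omega)
        simp only [pos]; split_ifs <;> simp only <;> omega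
  -- sweep the rest
  have hsweep : Clears (state M N s k) t W := by
    by_cases hlt : lf s t = 0
    · have c1 : Clears (state M N s k) t (W.filter (fun w => pos k w ≤ pos k t)) := by
        apply clears_sweep (pos k) (fun x y => rfl) t _ hlt
        · rw [Finset.mem_filter, memW]; tauto
        · intro u hu
          rw [Finset.mem_filter] at hu
          exact ⟨hWlf u hu.1, hu.2⟩
        · intro u hu hlt'
          by_cases he : pos k u + 1 = pos k t
          · exact ⟨t, by simp, he.symm⟩
          · have b1 := pos_le k u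
            have b2 := pos_le k t
            obtain ⟨w, hw, hw2⟩ := hpos (pos k u + 1) (by omega) he
            refine ⟨w, ?_, hw2⟩
            rw [Finset.mem_insert, Finset.mem_filter]
            exact Or.inr ⟨hw, by omega⟩
      have c2 : Clears (state M N s k) t (W.filter (fun w => ¬ pos k w ≤ pos k t)) := by
        apply clears_sweep (fun v => - pos k v) (fun x y => by omega) t _ hlt
        · rw [Finset.mem_filter, memW]; tauto
        · intro u hu
          rw [Finset.mem_filter] at hu
          exact ⟨hWlf u hu.1, by omega⟩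
        · intro u hu hlt'
          by_cases he : pos k u - 1 = pos k t
          · exact ⟨t, by simp, by omega⟩
          · have b1 := pos_le k u
            have b2 := pos_le k t
            obtain ⟨w, hw, hw2⟩ := hpos (pos k u - 1) (by omega) he
            refine ⟨w, ?_, by omega⟩
            rw [Finset.mem_insert, Finset.mem_filter]
            exact Or.inr ⟨hw, by omega⟩
      have c3 := c1.union c2 (Finset.disjoint_filter_filter_not _ _ _)
      rwa [Finset.filter_union_filter_not_eq] at c3
    · -- `t` is a leaf
      obtain ⟨c0, j0, rfl, hj0⟩ : ∃ (c0 : Bool) (j0 : Fin M), t = (c0, .inl j0) ∧ s ≤ j0.val := by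
        rcases t with ⟨c0, j0 | u⟩
        · refine ⟨c0, j0, rfl, ?_⟩
          simp only [lf] at hlt
          split_ifs at hlt <;> omega
        · exact absurd rfl hlt
      have hgs1 : g + 1 < M := by omega
      have hgs2 : g + 2 < M := by omega
      set a1 : Vtx M N := (c0, .inl ⟨g + 1, hgs1⟩) with ha1
      set a2 : Vtx M N := (c0, .inl ⟨g + 2, hgs2⟩) with ha2
      have ha12 : a1 ≠ a2 := by
        rw [ha1, ha2]; simp
      have h1t : a1 ≠ (c0, .inl j0) := by
        rw [ha1]; simp only [ne_eq, Prod.mk.injEq, Sum.inl.injEq, true_and, Fin.ext_iff]; omega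
      have h2t : a2 ≠ (c0, .inl j0) := by
        rw [ha2]; simp only [ne_eq, Prod.mk.injEq, Sum.inl.injEq, true_and, Fin.ext_iff]; omega
      have hW1 : a1 ∈ W := cenW c0 _ (le_refl _) (by show g + 1 < s; omega) h1t
      have hW2 : a2 ∈ W := cenW c0 _ (by show g + 1 ≤ g + 2; omega) (by show g + 2 < s; omega) h2t
      have hp1 : pos k a1 = pos k ((c0, .inl j0) : Vtx M N) := by
        rw [ha1]; cases c0 <;> simp only [pos]
      have hp2 : pos k a2 = pos k ((c0, .inl j0) : Vtx M N) := by
        rw [ha2]; cases c0 <;> simp only [pos]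
      have htW : ((c0, .inl j0) : Vtx M N) ∉ W := by rw [memW]; tauto
      have hadj1 : (state M N s k).Adj (c0, .inl j0) a1 := by
        rw [state, LG_adj]
        refine ⟨Ne.symm h1t, ?_⟩
        have := hWlf a1 hW1
        have := lf_le s ((c0, .inl j0) : Vtx M N)
        omega
      have hadj2 : (state M N s k).Adj (c0, .inl j0) a2 := by
        rw [state, LG_adj]
        refine ⟨Ne.symm h2t, ?_⟩
        have := hWlf a2 hW2
        have := lf_le s ((c0, .inl j0) : Vtx M N)
        omega
      generalize hT : ((c0, .inl j0) : Vtx M N) = T at *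
      have c1 : Clears (state M N s k) T
          (insert a1 (W.filter (fun w => pos k w < pos k T))) := by
        apply clears_sweep' (pos k) (fun x y => rfl) T a1 _ hadj1 (hWlf a1 hW1)
        · rw [Finset.mem_filter]; omega
        · rw [Finset.mem_filter]; omega
        · intro u hu
          rw [Finset.mem_filter] at hu
          exact ⟨hWlf u hu.1, by omega⟩
        · intro u hu hlt'
          by_cases he : pos k u + 1 = pos k T
          · exact ⟨a1, by simp, by omega⟩
          · have b1 := pos_le k u
            have b2 := pos_le k T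
            obtain ⟨w, hw, hw2⟩ := hpos (pos k u + 1) (by omega) he
            refine ⟨w, ?_, hw2⟩
            rw [Finset.mem_insert, Finset.mem_filter]
            exact Or.inr ⟨hw, by omega⟩
      have c2 : Clears (state M N s k) T
          (insert a2 (W.filter (fun w => pos k T ≤ pos k w ∧ w ≠ a1 ∧ w ≠ a2))) := by
        apply clears_sweep' (fun v => - pos k v) (fun x y => by omega) T a2 _ hadj2 (hWlf a2 hW2)
        · rw [Finset.mem_filter]; tauto
        · rw [Finset.mem_filter]; tauto
        · intro u hu
          rw [Finset.mem_filter] at hu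
          exact ⟨hWlf u hu.1, by omega⟩
        · intro u hu hlt'
          by_cases he : pos k u - 1 = pos k T
          · exact ⟨a2, by simp, by omega⟩
          · have b1 := pos_le k u
            have b2 := pos_le k T
            obtain ⟨w, hw, hw2⟩ := hpos (pos k u - 1) (by omega) he
            refine ⟨w, ?_, by omega⟩
            rw [Finset.mem_insert, Finset.mem_filter]
            refine Or.inr ⟨hw, by omega, ?_, ?_⟩
            · rintro rfl; omega
            · rintro rfl; omega
      have c3 := c1.union c2 (by
        rw [Finset.disjoint_left]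
        intro x hx hx'
        rw [Finset.mem_insert, Finset.mem_filter] at hx hx'
        rcases hx with rfl | hx
        · rcases hx' with h | h
          · exact ha12 h
          · exact h.2.2.1 rfl
        · rcases hx' with rfl | h
          · omega
          · omega)
      have : W = insert a1 (W.filter (fun w => pos k w < pos k T)) ∪
          insert a2 (W.filter (fun w => pos k T ≤ pos k w ∧ w ≠ a1 ∧ w ≠ a2)) := by
        ext x
        simp only [Finset.mem_union, Finset.mem_insert, Finset.mem_filter]
        constructor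
        · intro hx
          by_cases e1 : x = a1
          · exact Or.inl (Or.inl e1)
          by_cases e2 : x = a2
          · exact Or.inr (Or.inl e2)
          by_cases e3 : pos k x < pos k T
          · exact Or.inl (Or.inr ⟨hx, e3⟩)
          · exact Or.inr (Or.inr ⟨hx, by omega, e1, e2⟩)
        · rintro ((rfl | hx) | (rfl | hx))
          · exact hW1
          · exact hx.1
          · exact hW2
          · exact hx.1
      rw [this]
      exact c3
  have hall := hU.union hsweep (by
    rw [Finset.disjoint_left]
    intro x hx hx'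
    rw [memW] at hx'
    rw [Finset.mem_union] at hx
    tauto)
  refine ⟨_, hall.2 (fun _ => 1) (le_refl _) (fun _ _ => rfl), ?_⟩
  intro v hv
  have hvm : v ∈ U1 ∪ U2 ∪ W := by
    rw [Finset.mem_union, memW, Finset.mem_union]
    tauto
  simp only [hv, if_false, hvm, if_true]

end Pool.Agent.R91.Cup
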